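import Mathlib

/-!
# Circuits for online matrix-vector multiplication which respect symmetries: definitions
-/

set_option autoImplicit false

namespace Pool.Agent.H5OM

open Equiv

universe u v w

/-- What is known before a vector arrives, if `m` vectors came before it: the matrix, whose rows are indexed by `X` and
whose columns are indexed by `Y`, and the `m` earlier vectors. -/
abbrev Known (X Y R : Type) (m : ℕ) : Type := (X → Y → R) × (Fin m → Y → R)

/-- The source of the value of a gate: the entry `y` of the current vector, or a function `f` of what is known before the
vector arrives, or the wires into the gate. -/
inductive Src (Δ Y : Type) (D : Type u) : Type u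
  | entry (y : Y) : Src Δ Y D
  | known (f : Δ → D) : Src Δ Y D
  | inner : Src Δ Y D

/-- A circuit which processes one vector. The values are elements of `D`. An inner gate computes an arbitrary function
`op` of the multiset of the labelled values that arrive on its wires; each wire has a label and starts at a gate. The other
gates take their values from an entry of the vector or from what is known before the vector arrives. There is one
output gate for every row of the matrix. -/
structure Circuit (X Y R : Type) (m : ℕ) (D : Type u) where
  Gate : Type
  src : Gate → Src (Known X Y R m) Y D
  wires : Gate → Multiset (ℕ × Gate)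
  op : Gate → Multiset (ℕ × D) → D
  level : Gate → ℕ
  level_lt : ∀ g, ∀ e ∈ wires g, level e.2 < level g
  out : X → Gate

variable {X Y R : Type} {m : ℕ} {D : Type u}

/-- The value of a gate, for the known data `k` and the vector `v`; the entry `r` of the vector is represented by
`enc r`. -/
def Circuit.eval (C : Circuit X Y R m D) (enc : R → D) (k : Known X Y R m) (v : Y → R) (g : C.Gate) : D :=
  match C.src g with
  | .entry y => enc (v y)
  | .known f => f k
  | .inner => C.op g ((C.wires g).attach.map fun e => (e.1.1, C.eval enc k v e.1.2))
termination_by C.level g
decreasing_by exact C.level_lt g e.1 e.2

/-- The circuit gives the right answer for the known data `k` and the vector `v`: for every row `x`, the value of the output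
gate of the row `x` represents (by `dec`) the entry `x` of the product of the matrix `k.1` and the vector `v`. -/
def Circuit.Right [CommSemiring R] [Fintype Y] (C : Circuit X Y R m D) (enc : R → D) (dec : D → R)
    (k : Known X Y R m) (v : Y → R) : Prop :=
  ∀ x : X, dec (C.eval enc k v (C.out x)) = ∑ y, k.1 x y * v y

/-- The action of a permutation `σ` of the rows and a permutation `τ` of the columns on the known data. -/
def moved (σ : Perm X) (τ : Perm Y) (k : Known X Y R m) : Known X Y R m :=
  (fun x y => k.1 (σ⁻¹ x) (τ⁻¹ y), fun i y => k.2 i (τ⁻¹ y))

/-- The permutation `π` of the gates is an automorphism of the circuit which induces the permutation `σ` of the rows and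
the permutation `τ` of the columns: it maps the gates with the entry `y` of the vector to gates with the entry `τ y`, a
gate with the function `f` of the known data to a gate with the function `f'` such that `f' (moved σ τ k) = f k`, inner
gates to inner gates, it respects the wires with their labels and the functions of the gates, and maps the output gate of
the row `x` to the output gate of the row `σ x`. -/
structure Circuit.IsAut (C : Circuit X Y R m D) (σ : Perm X) (τ : Perm Y) (π : Perm C.Gate) : Prop where
  entry : ∀ g y, C.src g = .entry y → C.src (π g) = .entry (τ y)
  known : ∀ g f, C.src g = .known f → ∃ f', C.src (π g) = .known f' ∧ ∀ k, f' (moved σ τ k) = f k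
  inner : ∀ g, C.src g = .inner → C.src (π g) = .inner
  wires : ∀ g, C.wires (π g) = (C.wires g).map (Prod.map id π)
  op : ∀ g, C.op (π g) = C.op g
  out : ∀ x, π (C.out x) = C.out (σ x)

/-- The circuit is invariant under the permutation `σ` of the rows together with the permutation `τ` of the columns. -/
def Circuit.Invariant (C : Circuit X Y R m D) (σ : Perm X) (τ : Perm Y) : Prop := ∃ π : Perm C.Gate, C.IsAut σ τ π

/-- The cyclic shift `e x ↦ e (a + x)` of the elements `e 0, e 1, ..., e (p - 1)` of `X`; the other elements of `X` are
fixed. -/
noncomputable def cyc {p : ℕ} (e : ZMod p ↪ X) (a : ZMod p) : Perm X := (Equiv.addLeft a).viaEmbedding e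

/-- The gates whose values are not computed from the known data: the entries of the vector and the inner gates. -/
def Circuit.online (C : Circuit X Y R m D) : Set C.Gate := {g | ∀ f, C.src g ≠ .known f}

end Pool.Agent.H5OM
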