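import Pool.Agent.H5OM.Defs

/-!
# The lower bound
-/

set_option autoImplicit false

namespace Pool.Agent.H5OM

open Equiv Circuit

universe u

variable {X Y R : Type} {m : ℕ} {D : Type u} {C : Circuit X Y R m D}

namespace Circuit

theorem eval_entry {enc : R → D} {k : Known X Y R m} {v : Y → R} {g : C.Gate} {y : Y} (h : C.src g = .entry y) :
    C.eval enc k v g = enc (v y) := by
  rw [eval]; simp [h]

theorem eval_known {enc : R → D} {k : Known X Y R m} {v : Y → R} {g : C.Gate} {f : Known X Y R m → D}
    (h : C.src g = .known f) : C.eval enc k v g = f k := by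
  rw [eval]; simp [h]

theorem eval_inner {enc : R → D} {k : Known X Y R m} {v : Y → R} {g : C.Gate} (h : C.src g = .inner) :
    C.eval enc k v g = C.op g ((C.wires g).map fun e => (e.1, C.eval enc k v e.2)) := by
  rw [eval]
  simp only [h]
  congr 1
  exact Multiset.attach_map_val' (C.wires g) fun e => (e.1, C.eval enc k v e.2)

end Circuit

theorem moved_one (k : Known X Y R m) : moved 1 1 k = k := rfl

theorem moved_mul (σ σ' : Perm X) (τ τ' : Perm Y) (k : Known X Y R m) :
    moved (σ * σ') (τ * τ') k = moved σ τ (moved σ' τ' k) := by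
  unfold moved
  simp only [mul_inv_rev, Perm.mul_apply]

namespace Circuit

theorem IsAut.one : C.IsAut 1 1 1 where
  entry g y h := h
  known g f h := ⟨f, h, fun _ => rfl⟩
  inner g h := h
  wires g := by
    have : (Prod.map id (1 : Perm C.Gate) : ℕ × C.Gate → ℕ × C.Gate) = id := by
      ext ⟨a, b⟩ <;> rfl
    rw [this, Multiset.map_id]; rfl
  op g := rfl
  out x := rfl

theorem IsAut.mul {σ σ' : Perm X} {τ τ' : Perm Y} {π π' : Perm C.Gate} (h : C.IsAut σ τ π)
    (h' : C.IsAut σ' τ' π') : C.IsAut (σ * σ') (τ * τ') (π * π') where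
  entry g y hg := h.entry _ _ (h'.entry g y hg)
  known g f hg := by
    obtain ⟨f', h1, h2⟩ := h'.known g f hg
    obtain ⟨f'', h3, h4⟩ := h.known _ f' h1
    exact ⟨f'', h3, fun k => by rw [moved_mul, h4, h2]⟩
  inner g hg := h.inner _ (h'.inner g hg)
  wires g := by
    rw [Perm.mul_apply, h.wires, h'.wires, Multiset.map_map]
    rfl
  op g := by rw [Perm.mul_apply, h.op, h'.op]
  out x := by rw [Perm.mul_apply, h'.out, h.out]; rfl

theorem IsAut.inv {σ : Perm X} {τ : Perm Y} {π : Perm C.Gate} (h2 : C.IsAut σ τ π) : C.IsAut σ⁻¹ τ⁻¹ π⁻¹ := by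
  have ai : ∀ g, π (π⁻¹ g) = g := fun g => π.apply_symm_apply g
  refine ⟨?_, ?_, ?_, ?_, ?_, ?_⟩
  · intro g' y hg'
    cases hs : C.src (π⁻¹ g') with
    | entry y' =>
      have := h2.entry _ _ hs
      rw [ai, hg'] at this
      cases this
      rw [show τ⁻¹ (τ y') = y' from τ.symm_apply_apply y']
    | known f' =>
      obtain ⟨f'', h6, _⟩ := h2.known _ _ hs
      rw [ai, hg'] at h6; cases h6
    | inner =>
      have := h2.inner _ hs
      rw [ai, hg'] at this; cases this
  · intro g' f' hg'
    cases hs : C.src (π⁻¹ g') with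
    | entry y' =>
      have := h2.entry _ _ hs
      rw [ai, hg'] at this; cases this
    | known f'' =>
      obtain ⟨f3, h6, h7⟩ := h2.known _ _ hs
      rw [ai, hg'] at h6; cases h6
      refine ⟨f'', rfl, fun k => ?_⟩
      rw [← h7, ← moved_mul, mul_inv_cancel, mul_inv_cancel, moved_one]
    | inner =>
      have := h2.inner _ hs
      rw [ai, hg'] at this; cases this
  · intro g' hg'
    cases hs : C.src (π⁻¹ g') with
    | entry y' =>
      have := h2.entry _ _ hs
      rw [ai, hg'] at this; cases this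
    | known f'' =>
      obtain ⟨f3, h6, h7⟩ := h2.known _ _ hs
      rw [ai, hg'] at h6; cases h6
    | inner => rfl
  · intro g'
    have h1 := h2.wires (π⁻¹ g')
    rw [ai] at h1
    rw [h1, Multiset.map_map]
    have : (Prod.map id (π⁻¹ : Perm C.Gate)) ∘ (Prod.map id π : ℕ × C.Gate → ℕ × C.Gate) = id := by
      ext ⟨a, b⟩ <;> simp
    rw [this, Multiset.map_id]
  · intro g'
    have h1 := h2.op (π⁻¹ g')
    rw [ai] at h1
    exact h1.symm
  · intro x
    rw [Perm.inv_eq_iff_eq, h2.out]
    rw [show σ (σ⁻¹ x) = x from σ.apply_symm_apply x]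

theorem IsAut.pow {σ : Perm X} {τ : Perm Y} {π : Perm C.Gate} (h : C.IsAut σ τ π) (n : ℕ) :
    C.IsAut (σ ^ n) (τ ^ n) (π ^ n) := by
  induction n with
  | zero => exact IsAut.one
  | succ n ih => rw [pow_succ, pow_succ, pow_succ]; exact ih.mul h

/-- the kind of the gate is preserved in both directions -/
theorem IsAut.online_iff {σ : Perm X} {τ : Perm Y} {π : Perm C.Gate} (h : C.IsAut σ τ π) (g : C.Gate) :
    π g ∈ C.online ↔ g ∈ C.online := by
  constructor
  · intro h1 f hf
    obtain ⟨f', h2, _⟩ := h.known g f hf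
    exact h1 f' h2
  · intro h1 f hf
    cases hg : C.src g with
    | entry y => rw [h.entry g y hg] at hf; cases hf
    | known f' => exact h1 f' hg
    | inner => rw [h.inner g hg] at hf; cases hf

end Circuit

/-! ### The group -/

variable {p : ℕ} [Fact p.Prime] (e : ZMod p ↪ X) (f : ZMod p ↪ Y)

theorem cyc_add (a b : ZMod p) : cyc e (a + b) = cyc e a * cyc e b := by
  unfold cyc
  have h1 : (Equiv.addLeft (a + b) : Perm (ZMod p)) = Equiv.addLeft a * Equiv.addLeft b := by
    ext x
    simp
  rw [h1]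
  exact map_mul (Equiv.Perm.viaEmbeddingHom e) _ _

theorem cyc_zero : cyc e 0 = 1 := by
  have h := cyc_add e 0 0
  rw [add_zero] at h
  exact (left_eq_mul.1 h)

theorem cyc_nsmul (n : ℕ) (a : ZMod p) : cyc e (n • a) = cyc e a ^ n := by
  induction n with
  | zero => rw [zero_smul, cyc_zero, pow_zero]
  | succ n ih => rw [succ_nsmul, cyc_add, ih, pow_succ]

theorem cyc_apply (a x : ZMod p) : cyc e a (e x) = e (a + x) := Equiv.Perm.viaEmbedding_apply _ _ _

variable (C) in
/-- the stabilizer of a gate -/
def stab (g : C.Gate) : Set (ZMod p × ZMod p) := {u | ∃ π, C.IsAut (cyc e u.1) (cyc f u.2) π ∧ π g = g}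

variable {e f}

theorem stab_nsmul {g : C.Gate} {u : ZMod p × ZMod p} (hu : u ∈ stab C e f g) (n : ℕ) : n • u ∈ stab C e f g := by
  obtain ⟨π, h1, h2⟩ := hu
  refine ⟨π ^ n, ?_, ?_⟩
  · have := h1.pow n
    rw [← cyc_nsmul, ← cyc_nsmul] at this
    exact this
  · induction n with
    | zero => rfl
    | succ n ih => rw [pow_succ, Perm.mul_apply, h2, ih]

/-- if two shifts of gates coincide -/
theorem stab_sub {g : C.Gate} {u w : ZMod p × ZMod p} {π π' : Perm C.Gate}
    (h1 : C.IsAut (cyc e u.1) (cyc f u.2) π) (h2 : C.IsAut (cyc e w.1) (cyc f w.2) π') (h : π g = π' g) :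
    u - w ∈ stab C e f g := by
  have hinv1 : cyc e (-w).1 = (cyc e w.1)⁻¹ := by
    rw [eq_inv_iff_mul_eq_one, ← cyc_add, Prod.fst_neg, neg_add_cancel, cyc_zero]
  have hinv2 : cyc f (-w).2 = (cyc f w.2)⁻¹ := by
    rw [eq_inv_iff_mul_eq_one, ← cyc_add, Prod.snd_neg, neg_add_cancel, cyc_zero]
  refine ⟨π'⁻¹ * π, ?_, ?_⟩
  · have := h2.inv.mul h1
    rw [← hinv1, ← hinv2, ← cyc_add, ← cyc_add] at this
    rw [sub_eq_neg_add]
    exact this
  · rw [Perm.mul_apply, h]; exact π'.symm_apply_apply g

/-! ### Counting the orbits -/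

/-- the slope `t` is used by the circuit -/
def Used (C : Circuit X Y R m D) (e : ZMod p ↪ X) (f : ZMod p ↪ Y) (t : ZMod p) : Prop :=
  ∃ g ∈ C.online, ∀ u ∈ stab C e f g, u.2 = t * u.1

/-- If many slopes are used then there are many gates. -/
theorem count (hC : ∀ a b, C.Invariant (cyc e a) (cyc f b)) (hfin : C.online.Finite) (U : Finset (ZMod p))
    (hU0 : 0 ∉ U) (h : ∀ t ∈ U, Used C e f t) : p * U.card ≤ C.online.ncard := by
  classical
  choose π hπ using hC
  have key : ∀ (ι : Type) [Fintype ι] (F : ι → C.Gate), Function.Injective F → (∀ i, F i ∈ C.online) →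
      Fintype.card ι ≤ C.online.ncard := by
    intro ι _ F hF hF'
    have h1 : Set.range F ⊆ C.online := by rintro _ ⟨i, rfl⟩; exact hF' i
    refine le_trans (le_of_eq ?_) (Set.ncard_le_ncard h1 hfin)
    rw [← Set.image_univ, Set.ncard_image_of_injective _ hF, Set.ncard_univ, Nat.card_eq_fintype_card]
  by_cases h0 : ∃ g ∈ C.online, ∀ u ∈ stab C e f g, u = 0
  · obtain ⟨g, hg, h1⟩ := h0
    have h2 := key (ZMod p × ZMod p) (fun u => π u.1 u.2 g) (fun u w huw => by
      have := h1 _ (stab_sub (hπ u.1 u.2) (hπ w.1 w.2) huw)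
      exact sub_eq_zero.1 this) (fun u => ((hπ u.1 u.2).online_iff g).2 hg)
    rw [Fintype.card_prod, ZMod.card] at h2
    refine le_trans ?_ h2
    refine Nat.mul_le_mul_left p ?_
    calc U.card ≤ Fintype.card (ZMod p) := Finset.card_le_univ _
      _ = p := ZMod.card p
  · push Not at h0
    have h' : ∀ t : {t : ZMod p // t ∈ U}, ∃ g ∈ C.online, ∀ u ∈ stab C e f g, u.2 = t.1 * u.1 := fun t => h t.1 t.2
    choose G hG hG' using h'
    have h2 := key ({t : ZMod p // t ∈ U} × ZMod p) (fun q => π q.2 0 (G q.1)) (by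
      intro q q' hq
      dsimp only at hq
      obtain ⟨⟨t, ht⟩, x⟩ := q
      obtain ⟨⟨t', ht'⟩, x'⟩ := q'
      dsimp only at hq
      -- the stabilizers of the two gates coincide
      have hst : ∀ u, u ∈ stab C e f (G ⟨t, ht⟩) → u ∈ stab C e f (G ⟨t', ht'⟩) := by
        rintro u ⟨π₁, h3, h4⟩
        refine ⟨(π x' 0)⁻¹ * (π x 0 * π₁ * (π x 0)⁻¹) * π x' 0, ?_, ?_⟩
        · have := ((hπ x' 0).inv.mul (((hπ x 0).mul h3).mul (hπ x 0).inv)).mul (hπ x' 0)
          have comm1 : ∀ a b : ZMod p, cyc e a * cyc e b = cyc e b * cyc e a := by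
            intro a b; rw [← cyc_add, ← cyc_add, add_comm]
          have comm2 : ∀ a b : ZMod p, cyc f a * cyc f b = cyc f b * cyc f a := by
            intro a b; rw [← cyc_add, ← cyc_add, add_comm]
          have e1 : (cyc e x')⁻¹ * (cyc e x * cyc e u.1 * (cyc e x)⁻¹) * cyc e x' = cyc e u.1 := by
            rw [comm1 x u.1, mul_inv_cancel_right, mul_assoc, comm1 u.1 x', inv_mul_cancel_left]
          have e2 : (cyc f 0)⁻¹ * (cyc f 0 * cyc f u.2 * (cyc f 0)⁻¹) * cyc f 0 = cyc f u.2 := by
            rw [comm2 0 u.2, mul_inv_cancel_right, mul_assoc, comm2 u.2 0, inv_mul_cancel_left]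
          rw [e1, e2] at this
          exact this
        · simp only [Perm.mul_apply]
          rw [← hq]
          rw [show (π x 0)⁻¹ ((π x 0) (G ⟨t, ht⟩)) = G ⟨t, ht⟩ from (π x 0).symm_apply_apply _, h4, hq]
          exact (π x' 0).symm_apply_apply _
      obtain ⟨u, hu, hu0⟩ := h0 (G ⟨t, ht⟩) (hG ⟨t, ht⟩)
      have h5 : u.2 = t * u.1 := hG' ⟨t, ht⟩ u hu
      have h6 : u.2 = t' * u.1 := hG' ⟨t', ht'⟩ u (hst u hu)
      have htt : t = t' := by
        by_contra hne
        have h7 : (t - t') * u.1 = 0 := by rw [sub_mul, ← h5, ← h6, sub_self]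
        rcases mul_eq_zero.1 h7 with h8 | h8
        · exact hne (sub_eq_zero.1 h8)
        · apply hu0
          rw [h8, mul_zero] at h5
          exact Prod.ext h8 h5
      subst htt
      have h7 : ((x, (0 : ZMod p)) - (x', 0)).2 = t * ((x, (0 : ZMod p)) - (x', 0)).1 :=
        hG' ⟨t, ht⟩ _ (stab_sub (u := (x, 0)) (w := (x', 0)) (hπ x 0) (hπ x' 0) hq)
      simp only [Prod.fst_sub, Prod.snd_sub, sub_zero] at h7
      have h8 : x = x' := by
        rcases mul_eq_zero.1 h7.symm with h9 | h9
        · exact absurd (h9 ▸ ht) hU0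
        · exact sub_eq_zero.1 h9
      rw [h8]) (fun q => ((hπ q.2 0).online_iff _).2 (hG q.1))
    rw [Fintype.card_prod, ZMod.card, Fintype.card_coe, mul_comm] at h2
    exact h2

/-! ### The unused slope -/

/-- the matrix with ones at `(e i, f (t i))` -/
noncomputable def mat (R : Type) [CommSemiring R] (e : ZMod p ↪ X) (f : ZMod p ↪ Y) (t c : ZMod p) (x : X) (y : Y) : R := by
  classical
  exact if ∃ i, x = e i ∧ y = f (t * i + c) then 1 else 0

theorem mat_apply [CommSemiring R] (t c i j : ZMod p) :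
    mat R e f t c (e i) (f j) = if j = t * i + c then 1 else 0 := by
  classical
  unfold mat
  congr 1
  rw [eq_iff_iff]
  constructor
  · rintro ⟨i', h1, h2⟩
    rw [e.injective h1, f.injective h2]
  · rintro rfl
    exact ⟨i, rfl, rfl⟩

theorem cyc_symm_mem (a : ZMod p) (x : X) (i : ZMod p) : (cyc e a)⁻¹ x = e i ↔ x = e (i + a) := by
  rw [Perm.inv_eq_iff_eq, cyc_apply, add_comm]

theorem moved_mat [CommSemiring R] (t c a b : ZMod p) :
    moved (cyc e a) (cyc f b) ((mat R e f t c, fun _ _ => 0) : Known X Y R m) =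
      (mat R e f t (c + b - t * a), fun _ _ => 0) := by
  classical
  unfold moved
  refine Prod.ext ?_ rfl
  funext x y
  show mat R e f t c ((cyc e a)⁻¹ x) ((cyc f b)⁻¹ y) = _
  unfold mat
  congr 1
  rw [eq_iff_iff]
  constructor
  · rintro ⟨i, h1, h2⟩
    rw [cyc_symm_mem] at h1 h2
    refine ⟨i + a, h1, ?_⟩
    rw [h2]; congr 1; ring
  · rintro ⟨i, h1, h2⟩
    refine ⟨i - a, ?_, ?_⟩
    · rw [cyc_symm_mem, sub_add_cancel]; exact h1
    · rw [cyc_symm_mem, h2]; congr 1; ring

/-- the value of an online gate does not change if the matrix is shifted -/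
theorem same [CommSemiring R] {t : ZMod p} (ht : ∀ g ∈ C.online, ∃ u ∈ stab C e f g, u.2 ≠ t * u.1) (enc : R → D)
    (v : Y → R) (c c' : ZMod p) : ∀ g ∈ C.online,
      C.eval enc (mat R e f t c', fun _ _ => 0) v g = C.eval enc (mat R e f t c, fun _ _ => 0) v g := by
  classical
  suffices H : ∀ n, ∀ g ∈ C.online, C.level g = n →
      C.eval enc (mat R e f t c', fun _ _ => 0) v g = C.eval enc (mat R e f t c, fun _ _ => 0) v g from
    fun g hg => H _ g hg rfl
  intro n
  induction n using Nat.strong_induction_on with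
  | _ n ih =>
    intro g hg hn
    cases hs : C.src g with
    | entry y => rw [eval_entry hs, eval_entry hs]
    | known f' => exact absurd hs (hg f')
    | inner =>
      rw [eval_inner hs, eval_inner hs]
      congr 1
      -- an element of the stabilizer which moves the one matrix to the other one
      obtain ⟨u, hu, hu'⟩ := ht g hg
      have hd : u.2 - t * u.1 ≠ 0 := sub_ne_zero.2 hu'
      set q := (c' - c) / (u.2 - t * u.1) with hq
      obtain ⟨π, h1, h2⟩ := stab_nsmul hu q.val
      have h3 : moved (cyc e (q.val • u).1) (cyc f (q.val • u).2)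
          ((mat R e f t c, fun _ _ => 0) : Known X Y R m) = (mat R e f t c', fun _ _ => 0) := by
        rw [moved_mat]
        refine Prod.ext ?_ rfl
        show mat R e f t _ = mat R e f t _
        congr 1
        have h4 : (q.val • u).1 = q * u.1 := by
          rw [Prod.smul_fst, nsmul_eq_mul, ZMod.natCast_zmod_val]
        have h5 : (q.val • u).2 = q * u.2 := by
          rw [Prod.smul_snd, nsmul_eq_mul, ZMod.natCast_zmod_val]
        rw [h4, h5]
        have h6 : q * (u.2 - t * u.1) = c' - c := div_mul_cancel₀ _ hd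
        linear_combination h6
      -- the two parts of the wires
      have hsplit : ∀ k : Known X Y R m, (C.wires g).map (fun e => (e.1, C.eval enc k v e.2)) =
          ((C.wires g).filter fun e => e.2 ∈ C.online).map (fun e => (e.1, C.eval enc k v e.2)) +
          ((C.wires g).filter fun e => ¬ e.2 ∈ C.online).map (fun e => (e.1, C.eval enc k v e.2)) := by
        intro k
        rw [← Multiset.map_add, Multiset.filter_add_not]
      rw [hsplit, hsplit]
      congr 1
      · refine Multiset.map_congr rfl fun e' he' => ?_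
        rw [Multiset.mem_filter] at he'
        rw [ih _ (hn ▸ C.level_lt g e' he'.1) e'.2 he'.2 rfl]
      · have h4 : (C.wires g).filter (fun e => ¬ e.2 ∈ C.online) =
            ((C.wires g).filter fun e => ¬ e.2 ∈ C.online).map (Prod.map id π) := by
          conv_lhs => rw [← h2, h1.wires]
          rw [Multiset.filter_map]
          congr 1
          refine Multiset.filter_congr fun e' _ => ?_
          show ¬ π e'.2 ∈ C.online ↔ _
          rw [h1.online_iff]
        conv_lhs => rw [h4, Multiset.map_map]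
        refine Multiset.map_congr rfl fun e' he' => ?_
        rw [Multiset.mem_filter] at he'
        have h5 : ∃ f', C.src e'.2 = .known f' := by
          by_contra hcon
          push Not at hcon
          exact he'.2 hcon
        obtain ⟨f', h6⟩ := h5
        obtain ⟨f'', h7, h8⟩ := h1.known _ f' h6
        show (e'.1, C.eval enc _ v (π e'.2)) = _
        rw [eval_known h7, eval_known h6, ← h3, h8]

/-! ### Counting the right answers -/

/-- the unit vector -/
noncomputable def unit (R : Type) [CommSemiring R] (y : Y) : Y → R := by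
  classical
  exact fun y' => if y' = y then 1 else 0

theorem prod_unit [CommSemiring R] [Fintype Y] (t c i j : ZMod p) :
    ∑ y, mat R e f t c (e i) y * unit R (f j) y = if j = t * i + c then 1 else 0 := by
  classical
  unfold unit
  rw [Finset.sum_eq_single (f j)]
  · rw [if_pos rfl, mul_one, mat_apply]
  · intro y _ hy
    rw [if_neg hy, mul_zero]
  · intro h; exact absurd (Finset.mem_univ _) h

/-- the circuit is right for the matrix `mat t c` and the unit vector `j` -/
def Ok [CommSemiring R] [Fintype Y] (C : Circuit X Y R m D) (enc : R → D) (dec : D → R) (e : ZMod p ↪ X)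
    (f : ZMod p ↪ Y) (t c j : ZMod p) : Prop :=
  C.Right enc dec (mat R e f t c, fun _ _ => 0) (unit R (f j))

theorem Ok.eq [CommSemiring R] [Nontrivial R] [Fintype Y] {enc : R → D} {dec : D → R} {t c j c' j' : ZMod p} (ht : t ≠ 0)
    (h1 : Ok C enc dec e f t c j) (h2 : Ok C enc dec e f t c' j')
    (h : ∀ i : ZMod p, C.eval enc (mat R e f t c, fun _ _ => 0) (unit R (f j)) (C.out (e i)) =
      C.eval enc (mat R e f t c', fun _ _ => 0) (unit R (f j')) (C.out (e i))) : j - c = j' - c' := by
  classical
  have h3 := h1 (e ((j - c) / t))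
  have h4 := h2 (e ((j - c) / t))
  have h5 : t * ((j - c) / t) = j - c := mul_div_cancel₀ _ ht
  rw [h] at h3
  rw [h3] at h4
  simp only at h4
  rw [prod_unit, prod_unit, h5, if_pos (by ring)] at h4
  by_contra hne
  rw [if_neg] at h4
  · exact one_ne_zero h4
  · intro h6
    apply hne
    rw [h6]; ring

theorem out_online (hC : ∀ a b, C.Invariant (cyc e a) (cyc f b)) (i j : ZMod p) :
    C.out (e i) ∈ C.online ↔ C.out (e j) ∈ C.online := by
  obtain ⟨π, hπ⟩ := hC (j - i) 0
  have h1 : π (C.out (e i)) = C.out (e j) := by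
    rw [hπ.out, cyc_apply, sub_add_cancel]
  rw [← h1, hπ.online_iff]

open Classical in
/-- the number of the right answers -/
theorem count_ok [CommSemiring R] [Nontrivial R] [Fintype Y] {enc : R → D} {dec : D → R}
    (hC : ∀ a b, C.Invariant (cyc e a) (cyc f b)) (hfin : C.online.Finite) :
    ((Finset.univ : Finset (ZMod p × ZMod p × ZMod p)).filter fun q => q.1 ≠ 0 ∧ Ok C enc dec e f q.1 q.2.1 q.2.2).card ≤
      p * C.online.ncard + (p - 1) * p := by
  have hcardp : Fintype.card (ZMod p) = p := ZMod.card p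
  have hcard1 : ((Finset.univ : Finset (ZMod p)).filter fun t => t ≠ 0).card = p - 1 := by
    rw [Finset.filter_ne', Finset.card_erase_of_mem (Finset.mem_univ _), Finset.card_univ, hcardp]
  by_cases ho : C.out (e 0) ∈ C.online
  · -- the used and the unused slopes
    set U := (Finset.univ : Finset (ZMod p)).filter fun t => t ≠ 0 ∧ Used C e f t with hU
    have h1 : p * U.card ≤ C.online.ncard := count hC hfin U (by
      rw [hU, Finset.mem_filter]; rintro ⟨_, h, _⟩; exact h rfl) (fun t ht => (Finset.mem_filter.1 ht).2.2)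
    have h2 : ((Finset.univ : Finset (ZMod p × ZMod p × ZMod p)).filter fun q =>
        q.1 ≠ 0 ∧ Ok C enc dec e f q.1 q.2.1 q.2.2) ⊆
        (U ×ˢ (Finset.univ : Finset (ZMod p × ZMod p))) ∪
        ((Finset.univ : Finset (ZMod p × ZMod p × ZMod p)).filter fun q =>
          (q.1 ≠ 0 ∧ Ok C enc dec e f q.1 q.2.1 q.2.2) ∧ ¬ Used C e f q.1) := by
      rintro ⟨t, c, j⟩ hq
      rw [Finset.mem_filter] at hq
      by_cases hu : Used C e f t
      · exact Finset.mem_union_left _ (Finset.mem_product.2
          ⟨Finset.mem_filter.2 ⟨Finset.mem_univ _, hq.2.1, hu⟩, Finset.mem_univ _⟩)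
      · exact Finset.mem_union_right _ (Finset.mem_filter.2 ⟨Finset.mem_univ _, hq.2, hu⟩)
    have h3 : ((Finset.univ : Finset (ZMod p × ZMod p × ZMod p)).filter fun q =>
          (q.1 ≠ 0 ∧ Ok C enc dec e f q.1 q.2.1 q.2.2) ∧ ¬ Used C e f q.1).card ≤ (p - 1) * p := by
      calc _ ≤ (((Finset.univ : Finset (ZMod p)).filter fun t => t ≠ 0) ×ˢ (Finset.univ : Finset (ZMod p))).card := by
            refine Finset.card_le_card_of_injOn (fun q => (q.1, q.2.2)) ?_ ?_
            · rintro ⟨t, c, j⟩ hq
              rw [Finset.mem_coe, Finset.mem_filter] at hq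
              rw [Finset.mem_coe, Finset.mem_product, Finset.mem_filter]
              exact ⟨⟨Finset.mem_univ _, hq.2.1.1⟩, Finset.mem_univ _⟩
            · rintro ⟨t, c, j⟩ hq ⟨t', c', j'⟩ hq' heq
              rw [Finset.mem_coe, Finset.mem_filter] at hq hq'
              simp only [Prod.mk.injEq] at heq
              obtain ⟨rfl, rfl⟩ := heq
              have h4 : ∀ g ∈ C.online, ∃ u ∈ stab C e f g, u.2 ≠ t * u.1 := by
                have := hq.2.2
                unfold Used at this
                push Not at this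
                exact this
              have h5 : j - c = j - c' := Ok.eq hq.2.1.1 hq.2.1.2 hq'.2.1.2 (fun i =>
                same h4 enc _ c' c _ ((out_online hC 0 i).1 ho))
              have h6 : c = c' := by simpa using h5
              rw [h6]
        _ = (p - 1) * p := by rw [Finset.card_product, hcard1, Finset.card_univ, hcardp]
    refine (Finset.card_le_card h2).trans ((Finset.card_union_le _ _).trans (Nat.add_le_add ?_ h3))
    rw [Finset.card_product, Finset.card_univ, Fintype.card_prod, hcardp]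
    calc U.card * (p * p) = p * (p * U.card) := by ring
      _ ≤ p * C.online.ncard := Nat.mul_le_mul_left _ h1
  · -- the outputs do not depend on the vector
    refine le_trans ?_ (Nat.le_add_left _ _)
    calc _ ≤ (((Finset.univ : Finset (ZMod p)).filter fun t => t ≠ 0) ×ˢ (Finset.univ : Finset (ZMod p))).card := by
          refine Finset.card_le_card_of_injOn (fun q => (q.1, q.2.1)) ?_ ?_
          · rintro ⟨t, c, j⟩ hq
            rw [Finset.mem_coe, Finset.mem_filter] at hq
            rw [Finset.mem_coe, Finset.mem_product, Finset.mem_filter]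
            exact ⟨⟨Finset.mem_univ _, hq.2.1⟩, Finset.mem_univ _⟩
          · rintro ⟨t, c, j⟩ hq ⟨t', c', j'⟩ hq' heq
            rw [Finset.mem_coe, Finset.mem_filter] at hq hq'
            simp only [Prod.mk.injEq] at heq
            obtain ⟨rfl, rfl⟩ := heq
            have h5 : j - c = j' - c := Ok.eq hq.2.1 hq.2.2 hq'.2.2 (fun i => by
              have h6 : ∃ f', C.src (C.out (e i)) = .known f' := by
                by_contra hcon
                push Not at hcon
                exact ho ((out_online hC i 0).1 hcon)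
              obtain ⟨f', h6⟩ := h6
              rw [eval_known h6, eval_known h6])
            have h6 : j = j' := by simpa using h5
            rw [h6]
      _ = (p - 1) * p := by rw [Finset.card_product, hcard1, Finset.card_univ, hcardp]

open Classical in
/-- **The lower bound** for randomised circuits. -/
theorem lower [CommSemiring R] [Nontrivial R] [Fintype Y] {Ω : Type} [Fintype Ω] (w : Ω → ℝ) (hw : ∀ ω, 0 ≤ w ω)
    (hw1 : ∑ ω, w ω = 1) (C : Ω → Circuit X Y R m D) (enc : R → D) (dec : D → R) (γ : ℝ)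
    (hfin : ∀ ω, (C ω).online.Finite) (hC : ∀ ω a b, (C ω).Invariant (cyc e a) (cyc f b))
    (hR : ∀ k v, γ ≤ ∑ ω, if (C ω).Right enc dec k v then w ω else 0) :
    ((p : ℝ) - 1) * (γ * p - 1) ≤ ∑ ω, w ω * (C ω).online.ncard := by
  have hp0 : 1 ≤ p := (Fact.out : p.Prime).one_le
  have hcardp : Fintype.card (ZMod p) = p := ZMod.card p
  set S := (Finset.univ : Finset (ZMod p × ZMod p × ZMod p)).filter fun q => q.1 ≠ 0 with hS
  have hcardS : (S.card : ℝ) = (p - 1) * (p * p) := by
    have h1 : S = ((Finset.univ : Finset (ZMod p)).filter fun t => t ≠ 0) ×ˢ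
        (Finset.univ : Finset (ZMod p × ZMod p)) := by
      ext q
      simp [hS]
    rw [h1, Finset.card_product, Finset.filter_ne', Finset.card_erase_of_mem (Finset.mem_univ _), Finset.card_univ,
      Finset.card_univ, Fintype.card_prod, hcardp]
    push_cast [Nat.cast_sub hp0]
    ring
  have h1 : γ * S.card ≤ ∑ q ∈ S, ∑ ω, if (C ω).Right enc dec (mat R e f q.1 q.2.1, fun _ _ => 0)
      (unit R (f q.2.2)) then w ω else 0 := by
    rw [mul_comm, ← nsmul_eq_mul, ← Finset.sum_const]
    exact Finset.sum_le_sum fun q _ => hR _ _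
  rw [Finset.sum_comm] at h1
  have h2 : ∀ ω, (∑ q ∈ S, if (C ω).Right enc dec (mat R e f q.1 q.2.1, fun _ _ => 0)
      (unit R (f q.2.2)) then w ω else 0) ≤ w ω * (p * (C ω).online.ncard + (p - 1) * p) := by
    intro ω
    rw [← Finset.sum_filter, Finset.sum_const, nsmul_eq_mul, mul_comm]
    refine mul_le_mul_of_nonneg_left ?_ (hw ω)
    have h3 := count_ok (C := C ω) (enc := enc) (dec := dec) (hC ω) (hfin ω)
    have h4 : (S.filter fun q => (C ω).Right enc dec (mat R e f q.1 q.2.1, fun _ _ => 0) (unit R (f q.2.2))) =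
        ((Finset.univ : Finset (ZMod p × ZMod p × ZMod p)).filter fun q =>
          q.1 ≠ 0 ∧ Ok (C ω) enc dec e f q.1 q.2.1 q.2.2) := by
      rw [hS, Finset.filter_filter]; rfl
    rw [h4]
    calc _ ≤ ((p * (C ω).online.ncard + (p - 1) * p : ℕ) : ℝ) := by exact_mod_cast h3
      _ = _ := by push_cast [Nat.cast_sub hp0]; ring
  have h3 := h1.trans (Finset.sum_le_sum fun ω _ => h2 ω)
  have h4 : ∑ ω, w ω * ((p : ℝ) * (C ω).online.ncard + (p - 1) * p) =
      p * (∑ ω, w ω * (C ω).online.ncard) + (p - 1) * p := by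
    have : ∀ ω, w ω * ((p : ℝ) * (C ω).online.ncard + (p - 1) * p) =
        p * (w ω * (C ω).online.ncard) + w ω * ((p - 1) * p) := fun ω => by ring
    rw [Finset.sum_congr rfl fun ω _ => this ω, Finset.sum_add_distrib, ← Finset.mul_sum, ← Finset.sum_mul, hw1,
      one_mul]
  rw [h4, hcardS] at h3
  have hp' : (0 : ℝ) < p := by exact_mod_cast hp0
  have h5 : (p : ℝ) * (((p : ℝ) - 1) * (γ * p - 1)) ≤ p * ∑ ω, w ω * (C ω).online.ncard := by nlinarith
  exact le_of_mul_le_mul_left h5 hp'

end Pool.Agent.H5OM
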