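import Pool.Agent.H5OM.Main

/-!
# The circuit which multiplies entry by entry
-/

set_option autoImplicit false

namespace Pool.Agent.H5OM

open Equiv Circuit

/-- the gates: entries of the matrix, entries of the vector, products, sums -/
inductive Nd (X Y : Type) : Type
  | mat (x : X) (y : Y) : Nd X Y
  | vec (y : Y) : Nd X Y
  | prod (x : X) (y : Y) : Nd X Y
  | sum (x : X) : Nd X Y

variable {X Y R : Type} [CommSemiring R]

/-- the level -/
def Nd.level : Nd X Y → ℕ
  | .mat _ _ => 0
  | .vec _ => 0
  | .prod _ _ => 1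
  | .sum _ => 2

variable (X Y R) in
/-- the circuit -/
def naive [Fintype Y] (m : ℕ) : Circuit X Y R m R where
  Gate := Nd X Y
  src g := match g with
    | .mat x y => .known fun k => k.1 x y
    | .vec y => .entry y
    | .prod _ _ => .inner
    | .sum _ => .inner
  wires g := match g with
    | .mat _ _ => 0
    | .vec _ => 0
    | .prod x y => {(0, .mat x y), (0, .vec y)}
    | .sum x => (Finset.univ : Finset Y).val.map fun y => (0, .prod x y)
  op g s := match g with
    | .mat _ _ => 0
    | .vec _ => 0
    | .prod _ _ => (s.map Prod.snd).prod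
    | .sum _ => (s.map Prod.snd).sum
  level := Nd.level
  level_lt := by
    rintro (⟨x, y⟩ | y | ⟨x, y⟩ | x) e he
    · simp at he
    · simp at he
    · simp only [Multiset.insert_eq_cons, Multiset.mem_cons, Multiset.mem_singleton] at he
      rcases he with rfl | rfl
      · exact Nat.zero_lt_one
      · exact Nat.zero_lt_one
    · simp only [Multiset.mem_map] at he
      obtain ⟨y, _, rfl⟩ := he
      exact Nat.one_lt_two
  out x := .sum x

/-- the permutation of the gates -/
def Nd.perm (σ : Perm X) (τ : Perm Y) : Perm (Nd X Y) where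
  toFun g := match g with
    | .mat x y => .mat (σ x) (τ y)
    | .vec y => .vec (τ y)
    | .prod x y => .prod (σ x) (τ y)
    | .sum x => .sum (σ x)
  invFun g := match g with
    | .mat x y => .mat (σ.symm x) (τ.symm y)
    | .vec y => .vec (τ.symm y)
    | .prod x y => .prod (σ.symm x) (τ.symm y)
    | .sum x => .sum (σ.symm x)
  left_inv g := by cases g <;> simp
  right_inv g := by cases g <;> simp

theorem naive_invariant [Fintype Y] (m : ℕ) (σ : Perm X) (τ : Perm Y) : (naive X Y R m).Invariant σ τ := by
  refine ⟨Nd.perm σ τ, ?_, ?_, ?_, ?_, ?_, ?_⟩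
  · rintro (⟨x, y⟩ | y | ⟨x, y⟩ | x) y' h
    · cases h
    · cases h; rfl
    · cases h
    · cases h
  · rintro (⟨x, y⟩ | y | ⟨x, y⟩ | x) f h
    · cases h
      refine ⟨_, rfl, fun k => ?_⟩
      show k.1 (σ⁻¹ (σ x)) (τ⁻¹ (τ y)) = k.1 x y
      rw [show σ⁻¹ (σ x) = x from σ.symm_apply_apply x, show τ⁻¹ (τ y) = y from τ.symm_apply_apply y]
    · cases h
    · cases h
    · cases h
  · rintro (⟨x, y⟩ | y | ⟨x, y⟩ | x) h
    · cases h
    · cases h
    · rfl
    · rfl
  · rintro (⟨x, y⟩ | y | ⟨x, y⟩ | x)
    · rfl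
    · rfl
    · show ({(0, Nd.mat (σ x) (τ y)), (0, Nd.vec (τ y))} : Multiset (ℕ × Nd X Y)) =
        Multiset.map _ {(0, Nd.mat x y), (0, Nd.vec y)}
      rw [Multiset.insert_eq_cons, Multiset.insert_eq_cons, Multiset.map_cons, Multiset.map_singleton]
      rfl
    · show (Finset.univ : Finset Y).val.map (fun y => ((0 : ℕ), Nd.prod (σ x) y)) =
        ((Finset.univ : Finset Y).val.map fun y => ((0 : ℕ), Nd.prod x y)).map _
      rw [Multiset.map_map]
      have h1 : (Finset.univ : Finset Y) = Finset.univ.map τ.toEmbedding := by rw [Finset.map_univ_equiv]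
      conv_lhs => rw [h1, Finset.map_val, Multiset.map_map]
      rfl
  · rintro (⟨x, y⟩ | y | ⟨x, y⟩ | x) <;> rfl
  · intro x; rfl

theorem naive_right [Fintype Y] (m : ℕ) (k : Known X Y R m) (v : Y → R) : (naive X Y R m).Right id id k v := by
  intro x
  have hm : ∀ x y, (naive X Y R m).eval id k v (.mat x y) = k.1 x y := fun x y => eval_known (f := fun k => k.1 x y) rfl
  have hv : ∀ y, (naive X Y R m).eval id k v (.vec y) = v y := fun y => eval_entry (y := y) rfl
  have hp : ∀ x y, (naive X Y R m).eval id k v (.prod x y) = k.1 x y * v y := by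
    intro x y
    rw [eval_inner rfl]
    show (Multiset.map Prod.snd (Multiset.map (fun e => (e.1, (naive X Y R m).eval id k v e.2))
      ({(0, Nd.mat x y), (0, Nd.vec y)} : Multiset (ℕ × Nd X Y)))).prod = _
    rw [Multiset.insert_eq_cons, Multiset.map_cons, Multiset.map_singleton, Multiset.map_cons,
      Multiset.map_singleton, Multiset.prod_cons, Multiset.prod_singleton]
    rw [hm, hv]
  show (naive X Y R m).eval id k v (.sum x) = _
  rw [eval_inner rfl]
  show (Multiset.map Prod.snd (Multiset.map (fun e => (e.1, (naive X Y R m).eval id k v e.2))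
    ((Finset.univ : Finset Y).val.map fun y => ((0 : ℕ), Nd.prod x y)))).sum = _
  rw [Multiset.map_map, Multiset.map_map]
  show _ = ((Finset.univ : Finset Y).val.map fun y => k.1 x y * v y).sum
  congr 1
  refine Multiset.map_congr rfl fun y _ => ?_
  exact hp x y

/-- the gates which are not entries of the matrix -/
def onl : (X × Y) ⊕ X ⊕ Y → Nd X Y
  | .inl q => .prod q.1 q.2
  | .inr (.inl x) => .sum x
  | .inr (.inr y) => .vec y

theorem onl_injective : Function.Injective (onl : (X × Y) ⊕ X ⊕ Y → Nd X Y) := by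
  rintro (⟨x, y⟩ | x | y) (⟨x', y'⟩ | x' | y') h <;> simp_all [onl]

theorem naive_online [Fintype X] [Fintype Y] (m : ℕ) :
    (naive X Y R m).online.Finite ∧
      (naive X Y R m).online.ncard = Fintype.card X * Fintype.card Y + Fintype.card X + Fintype.card Y := by
  classical
  have h1 : ((naive X Y R m).online : Set (Nd X Y)) = Set.range onl := by
    ext g
    constructor
    · intro hg
      rcases g with ⟨x, y⟩ | y | ⟨x, y⟩ | x
      · exact absurd rfl (hg fun k => k.1 x y)
      · exact ⟨.inr (.inr y), rfl⟩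
      · exact ⟨.inl (x, y), rfl⟩
      · exact ⟨.inr (.inl x), rfl⟩
    · rintro ⟨q, rfl⟩ f hf
      rcases q with q | x | y <;> cases hf
  have h2 : (Set.range (onl : (X × Y) ⊕ X ⊕ Y → Nd X Y)).ncard =
      Fintype.card X * Fintype.card Y + Fintype.card X + Fintype.card Y := by
    rw [← Set.image_univ, Set.ncard_image_of_injective _ onl_injective, Set.ncard_univ, Nat.card_eq_fintype_card,
      Fintype.card_sum, Fintype.card_sum, Fintype.card_prod, add_assoc]
  refine ⟨?_, (congrArg Set.ncard h1).trans h2⟩
  show Set.Finite ((naive X Y R m).online : Set (Nd X Y))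
  rw [h1]
  exact Set.finite_range _

end Pool.Agent.H5OM
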